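import Mathlib
import Pool.Agent.Helper951.FrD

/-!
# The defect of a clique and the spectral radius

For a clique `L` with `k` vertices of a graph with `m` edges the defect is
`∑ r ∉ L, j r (k - j r) + k e`, where `j r` is the number of neighbours of `r` in `L` and `e` the
number of edges outside `L`. The spectral radius `λ` satisfies
`m - k (k - 1) / 2 - defect / k ≤ λ ^ 2 - (k - 1) λ`.
-/

set_option autoImplicit false

open Finset Matrix

namespace Pool.Agent.Y804.SF

open Pool.Agent.Helper951.Defs Pool.Agent.Helper951.Spec Pool.Agent.Helper951.FrB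
open Pool.Agent.Helper951.Core Pool.Agent.Helper951.FrC Pool.Agent.Helper951.FrD

section

variable {V : Type*} [Fintype V] [DecidableEq V] (G : SimpleGraph V) [DecidableRel G.Adj]

/-- the defect of `L`, in the notation of the library -/
noncomputable def DD (k : ℕ) (L : Finset V) : ℝ :=
  ∑ r ∈ Lᶜ, dg G L r * (k - dg G L r) + k * (EE G Lᶜ Lᶜ / 2)

variable {G}

lemma EE_LL (k : ℕ) (hk : 1 ≤ k) (L : Finset V) (hL : L.card = k)
    (hcl : ∀ a ∈ L, ∀ b ∈ L, a ≠ b → G.Adj a b) : EE G L L = k * (k - 1) := by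
  rw [EE_eq]
  have : ∀ a ∈ L, dg G L a = ((k - 1 : ℕ) : ℝ) := by
    intro a ha
    unfold dg
    rw [← Finset.add_sum_erase L _ ha, ad_self, zero_add,
      Finset.sum_congr rfl (fun b hb => ad_of G a b (hcl a ha b (Finset.mem_erase.1 hb).2
        (Finset.mem_erase.1 hb).1.symm)), Finset.sum_const, nsmul_eq_mul, mul_one,
      Finset.card_erase_of_mem ha, hL]
  rw [Finset.sum_congr rfl this, Finset.sum_const, nsmul_eq_mul, hL, Nat.cast_sub hk, Nat.cast_one]

lemma edges_split (k m : ℕ) (hk : 1 ≤ k) (L : Finset V) (hL : L.card = k)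
    (hcl : ∀ a ∈ L, ∀ b ∈ L, a ≠ b → G.Adj a b) (hG : G.edgeFinset.card = m) :
    (2 * m : ℝ) = k * (k - 1) + 2 * ∑ r ∈ Lᶜ, dg G L r + EE G Lᶜ Lᶜ := by
  have hsp : ∀ A : Finset V, EE G A univ = EE G A L + EE G A Lᶜ := by
    intro A
    unfold EE
    rw [← Finset.sum_add_distrib]
    exact Finset.sum_congr rfl (fun v _ => (Finset.sum_add_sum_compl L _).symm)
  have h1 : EE G univ univ = EE G L univ + EE G Lᶜ univ := by
    unfold EE
    rw [Finset.sum_add_sum_compl L]
  have h2 := hsp L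
  have h3 := hsp Lᶜ
  have h4 := EE_comm (G := G) L Lᶜ
  have h5 : EE G Lᶜ L = ∑ r ∈ Lᶜ, dg G L r := rfl
  have h6 := EE_LL k hk L hL hcl
  have h7 : EE G univ univ = 2 * (m : ℝ) := by rw [EE_univ_eq, hG]
  linarith

/-- the defect is an integer -/
lemma DD_le_of_lt (k m z : ℕ) (hk : 1 ≤ k) (L : Finset V) (hL : L.card = k)
    (hcl : ∀ a ∈ L, ∀ b ∈ L, a ≠ b → G.Adj a b) (hG : G.edgeFinset.card = m)
    (h : DD G k L < (z : ℝ) + 1) : DD G k L ≤ z := by
  set j : V → ℕ := fun r => (L.filter (G.Adj r)).card with hj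
  have hjd : ∀ r, dg G L r = (j r : ℝ) := fun r => dg_card G L r
  have hjk : ∀ r, j r ≤ k := fun r => (Finset.card_filter_le _ _).trans hL.le
  set ER : ℕ := ∑ r ∈ Lᶜ, (Lᶜ.filter (G.Adj r)).card with hER
  have hERr : EE G Lᶜ Lᶜ = (ER : ℝ) := by
    rw [EE_eq, hER]
    push_cast
    exact Finset.sum_congr rfl (fun r _ => dg_card G Lᶜ r)
  obtain ⟨c, hc⟩ : ∃ c, k * (k - 1) = 2 * c := (Nat.even_mul_pred_self k).two_dvd
  have hm : (2 * m : ℕ) = 2 * c + 2 * ∑ r ∈ Lᶜ, j r + ER := by
    have h1 := edges_split k m hk L hL hcl hG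
    rw [hERr, Finset.sum_congr rfl (fun r _ => hjd r)] at h1
    have h2 : (k : ℝ) * (k - 1) = 2 * (c : ℝ) := by
      have : ((k * (k - 1) : ℕ) : ℝ) = ((2 * c : ℕ) : ℝ) := by rw [hc]
      push_cast [Nat.cast_sub hk] at this
      exact this
    rw [h2] at h1
    exact_mod_cast h1
  obtain ⟨e, he⟩ : ∃ e, ER = 2 * e := ⟨m - c - ∑ r ∈ Lᶜ, j r, by omega⟩
  have hD : DD G k L = ((∑ r ∈ Lᶜ, j r * (k - j r) + k * e : ℕ) : ℝ) := by
    unfold DD
    push_cast
    congr 1
    · apply Finset.sum_congr rfl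
      intro r _
      rw [hjd, Nat.cast_sub (hjk r)]
    · rw [hERr, he]
      push_cast
      ring
  rw [hD] at h ⊢
  have h2 : ∑ r ∈ Lᶜ, j r * (k - j r) + k * e < z + 1 := by exact_mod_cast h
  exact_mod_cast Nat.lt_succ_iff.1 h2

/-- a clique of small defect makes the spectral radius large -/
lemma clique_lower (k m : ℕ) (hk : 2 ≤ k) (L : Finset V) (hL : L.card = k)
    (hcl : ∀ a ∈ L, ∀ b ∈ L, a ≠ b → G.Adj a b) (hG : G.edgeFinset.card = m) :
    (m : ℝ) - k * (k - 1) / 2 - DD G k L / k ≤ specRad G ^ 2 - (k - 1) * specRad G := by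
  have hne : Nonempty V := by
    have : 0 < L.card := by omega
    exact ⟨(Finset.card_pos.1 this).choose⟩
  have hkR : (2 : ℝ) ≤ k := by exact_mod_cast hk
  set Q : ℝ := ∑ r ∈ Lᶜ, dg G L r ^ 2 with hQ
  have hQ0 : 0 ≤ Q := Finset.sum_nonneg (fun _ _ => sq_nonneg _)
  -- Rayleigh quotient
  have hray : ∀ c : ℝ, 0 ≤ c → (k : ℝ) * (k - 1) + 2 * c * Q ≤ specRad G * (k + c ^ 2 * Q) := by
    intro c hc
    let y : V → ℝ := fun v => if v ∈ L then 1 else c * dg G L v
    have h := rayleigh_le G y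
    have hy1 : ∀ v ∈ L, y v = 1 := fun v hv => if_pos hv
    have hy2 : ∀ v ∈ Lᶜ, y v = c * dg G L v := fun v hv => if_neg (Finset.mem_compl.1 hv)
    have hR : y ⬝ᵥ y = k + c ^ 2 * Q := by
      unfold dotProduct
      rw [← Finset.sum_add_sum_compl L, Finset.sum_congr rfl (fun v hv => by rw [hy1 v hv]),
        Finset.sum_congr (s₁ := Lᶜ) rfl (fun v hv => by rw [hy2 v hv]), hQ, Finset.mul_sum]
      simp only [mul_one, Finset.sum_const, nsmul_eq_mul, hL]
      congr 1
      exact Finset.sum_congr rfl (fun v _ => by ring)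
    have hA : ∀ v, (G.adjMatrix ℝ *ᵥ y) v = ∑ w, ad G v w * y w := by
      intro v
      rw [SimpleGraph.adjMatrix_mulVec_apply, Pool.Agent.Helper951.FrD.nbr_sum]
      apply Finset.sum_congr rfl
      intro w _
      unfold ad
      split_ifs <;> simp
    have hA1 : ∀ v, ∑ w, ad G v w * y w = dg G L v + c * ∑ w ∈ Lᶜ, ad G v w * dg G L w := by
      intro v
      rw [← Finset.sum_add_sum_compl L, Finset.sum_congr rfl (fun w hw => by rw [hy1 w hw, mul_one]),
        Finset.sum_congr (s₁ := Lᶜ) rfl (fun w hw => by rw [hy2 w hw]), Finset.mul_sum]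
      congr 1
      exact Finset.sum_congr rfl (fun w _ => by ring)
    have hLq : (k : ℝ) * (k - 1) + 2 * c * Q ≤ y ⬝ᵥ (G.adjMatrix ℝ *ᵥ y) := by
      unfold dotProduct
      rw [Finset.sum_congr rfl (fun v _ => by rw [hA v, hA1 v]), ← Finset.sum_add_sum_compl L,
        Finset.sum_congr rfl (fun v hv => by rw [hy1 v hv, one_mul]),
        Finset.sum_congr (s₁ := Lᶜ) rfl (fun v hv => by rw [hy2 v hv]), Finset.sum_add_distrib]
      have e1 : ∑ v ∈ L, dg G L v = k * (k - 1) := EE_LL k (by omega) L hL hcl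
      have e2 : ∑ v ∈ L, c * ∑ w ∈ Lᶜ, ad G v w * dg G L w = c * Q := by
        rw [← Finset.mul_sum, Finset.sum_comm, hQ]
        congr 1
        apply Finset.sum_congr rfl
        intro w _
        rw [← Finset.sum_mul, sq]
        congr 1
        unfold dg
        exact Finset.sum_congr rfl (fun v _ => ad_symm G v w)
      have e3 : c * Q ≤ ∑ v ∈ Lᶜ, c * dg G L v *
          (dg G L v + c * ∑ w ∈ Lᶜ, ad G v w * dg G L w) := by
        rw [hQ, Finset.mul_sum]
        apply Finset.sum_le_sum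
        intro v _
        have h1 := dg_nonneg (G := G) L v
        have h2 : 0 ≤ ∑ w ∈ Lᶜ, ad G v w * dg G L w :=
          Finset.sum_nonneg (fun w _ => mul_nonneg (ad_nonneg G v w) (dg_nonneg L w))
        have h3 : 0 ≤ c * dg G L v * (c * ∑ w ∈ Lᶜ, ad G v w * dg G L w) := by positivity
        nlinarith
      rw [e1, e2]
      linarith
    rw [hR] at h
    exact hLq.trans h
  set θ := specRad G with hθ
  have h0 := hray 0 le_rfl
  have hθ1 : (k : ℝ) - 1 ≤ θ := by
    have h1 : (k : ℝ) * (k - 1) ≤ k * θ := by nlinarith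
    exact le_of_mul_le_mul_left h1 (by linarith)
  have hθ0 : 0 < θ := by linarith
  have h2 := hray (1 / θ) (by positivity)
  have h3 : Q ≤ k * (θ ^ 2 - (k - 1) * θ) := by
    have e1 : θ * (k + (1 / θ) ^ 2 * Q) = k * θ + Q / θ := by
      field_simp
    rw [e1] at h2
    have e2 : 2 * (1 / θ) * Q = 2 * (Q / θ) := by ring
    rw [e2] at h2
    have h4 : Q / θ ≤ k * θ - k * (k - 1) := by linarith
    rw [div_le_iff₀ hθ0] at h4
    linarith
  have h5 := edges_split k m (by omega) L hL hcl hG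
  have h6 : (m : ℝ) - k * (k - 1) / 2 - DD G k L / k = Q / k := by
    have e1 : DD G k L = k * ∑ r ∈ Lᶜ, dg G L r - Q + k * (EE G Lᶜ Lᶜ / 2) := by
      unfold DD
      rw [hQ, Finset.mul_sum, ← Finset.sum_sub_distrib]
      congr 1
      exact Finset.sum_congr rfl (fun r _ => by ring)
    rw [e1]
    field_simp
    linear_combination (k : ℝ) * h5
  rw [h6, div_le_iff₀ (by linarith)]
  linarith

end

open Classical in
/-- The defect of the set `L` with `k` elements: the sum over the vertices `r` outside `L` of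
`j (k - j) + k o / 2`, where `j` and `o` are the numbers of neighbours of `r` in `L` and outside
`L`; so this is the sum of the `j (k - j)` plus `k` times the number of edges outside `L`. -/
noncomputable def defect {V : Type} [Fintype V] (G : SimpleGraph V) (k : ℕ) (L : Finset V) : ℝ :=
  ∑ r ∈ Lᶜ, (((L.filter (fun w => G.Adj r w)).card : ℝ) *
    (k - ((L.filter (fun w => G.Adj r w)).card : ℝ)) +
    k * ((Lᶜ.filter (fun w => G.Adj r w)).card : ℝ) / 2)

open Classical in
lemma defect_eq {V : Type} [Fintype V] (G : SimpleGraph V) (k : ℕ) (L : Finset V) :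
    defect G k L = DD G k L := by
  unfold defect DD
  rw [EE_eq, Finset.sum_div, Finset.mul_sum, ← Finset.sum_add_distrib]
  apply Finset.sum_congr rfl
  intro r _
  rw [dg_card, dg_card]
  ring

end Pool.Agent.Y804.SF
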